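import Pool.Agent.Run7.h502.FD.Det

/-!
# The determinant of an `R`-disjoint graph factors along its flower decomposition
-/

set_option autoImplicit false

namespace Pool.Agent.Results.MP_079569_co.FlowerDet

open SimpleGraph Pool.Agent.Run7.h502.FD

open Classical in
/-- For every finite `R`-disjoint graph `G` with flower decomposition `B(G), R_1, ..., R_k`,
`det A(G) = det A(G[B(G)]) * ∏ det A(G[R_i])`. -/
theorem result {V : Type*} [Fintype V] (G : SimpleGraph V) (hG : RDisjoint G) :
    (G.adjMatrix ℝ).det = ((G.induce (bipPart G)).adjMatrix ℝ).det *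
      ∏ C : {C : G.Subgraph // IsOddCycle G C},
        ((G.induce (reach G C.1)).adjMatrix ℝ).det :=
  det_flower G hG

end Pool.Agent.Results.MP_079569_co.FlowerDet
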